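import Pool.Agent.R414.EG.Por

/-!
# The limit law of the portraits
-/

set_option autoImplicit false

open Finset Height NumberField Filter Topology
open Pool.Agent.W276.GE
open Pool.Agent.R414.EA
open Pool.Agent.R414.ED (cnt cnt_mono cnt_or main_limit)

noncomputable section

namespace Pool.Agent.R414.EG

theorem cnt_cur {N d : ℕ} (Q : (Fin (N + 1) → E (N + 1) d → ℤ) → Prop) (H : ℕ) :
    cnt (fun v : Ix N d → ℤ => Q (cur v)) H =
      ({F | F ∈ Fb (N + 1) d H ∧ Q F} : Set (Fin (N + 1) → E (N + 1) d → ℤ)).ncard := by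
  have hinj : Function.Injective (cur : (Ix N d → ℤ) → Fin (N + 1) → E (N + 1) d → ℤ) := by
    intro v w h
    funext q
    exact congrFun (congrFun h q.1) q.2
  unfold cnt
  rw [← Set.ncard_image_of_injective _ hinj]
  congr 1
  ext F
  simp only [Set.mem_image, Set.mem_ofPred_eq, mem_Fb, mem_box]
  constructor
  · rintro ⟨w, ⟨h1, h2⟩, rfl⟩
    exact ⟨fun i α => h1 (i, α), h2⟩
  · rintro ⟨h1, h2⟩
    exact ⟨fun q => F q.1 q.2, ⟨fun q => h1 q.1 q.2, h2⟩, rfl⟩

theorem valid_of_eq {N d D : ℕ} {F : Fin (N + 1) → E (N + 1) d → ℤ} (hF : NoZero F)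
    {i : Finset (V N × V N)} (h : Port D F = i) : Valid D i := by
  have hmem : ∀ q, q ∈ i ↔ q ∈ Port D F := by
    intro q
    rw [h, Finset.mem_coe]
  constructor
  · intro q hq
    rw [hmem] at hq
    exact ⟨hq.1.1, hq.1.2.1, hq.2.1⟩
  · intro q hq
    rw [hmem] at hq
    obtain ⟨y', hy', c', hc', h'⟩ := hq.1.image hF
    obtain ⟨hq1, hq2, c'', hc'', h''⟩ := hq
    have h3 : y' = q.2 := by
      refine hy'.1.eq hq2 (c := c'⁻¹ * c'') ?_
      rw [← smul_smul, ← h'', h', smul_smul, inv_mul_cancel₀ hc', one_smul]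
    obtain ⟨z, hz, a, ha, hza⟩ := hy'.image hF
    refine ⟨(y', z), ?_, h3⟩
    rw [hmem]
    exact ⟨hy', hz.1, a, ha, hza⟩

theorem mem_Lt_of {N d D k : ℕ} {i : Finset (V N × V N)} {v : Ix N d → ℤ} (h1 : Valid D i)
    (h2 : i.card = k) (h3 : v ∈ lat N d i) : v ∈ Lt N d D k i := by
  classical
  unfold Lt
  rw [if_pos ⟨h1, h2⟩]
  exact h3

theorem exp_le {N d k : ℕ} (hN : 1 ≤ N) (hk : k ≤ d) : k * N ≤ (N + 1) * (N + d).choose N := by
  have h1 : d + 1 ≤ (N + d).choose N := by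
    rw [Nat.choose_symm_add]
    have h2 := Nat.choose_le_choose d (show 1 + d ≤ N + d by omega)
    rwa [add_comm 1 d, Nat.choose_succ_self_right] at h2
  nlinarith

theorem manyC_mono {N d D D' k : ℕ} (h : D ≤ D') {F : Fin (N + 1) → E (N + 1) d → ℤ}
    (hF : ManyC D k F) : ManyC D' k F := by
  obtain ⟨x, h1, h2, h3⟩ := hF
  refine ⟨x, h1, h2, fun i => ⟨?_, (h3 i).2⟩⟩
  obtain ⟨K, hK1, hK2, hK3⟩ := (h3 i).1
  exact ⟨K, hK1, hK2.trans h, hK3⟩

theorem law (N D k : ℕ) (hN : 1 ≤ N) (hD : 1 ≤ D) (hk : 1 ≤ k) : ∃ d₀ : ℕ, ∀ d, d₀ ≤ d →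
    ∃ (a : Finset (V N × V N) → ℝ) (κ : ℝ), 0 < κ ∧ (∀ i, 0 ≤ a i) ∧ (∀ i, i.card ≠ k → a i = 0) ∧
      HasSum a κ ∧
      Tendsto (fun H : ℕ => (({F | F ∈ Fb (N + 1) d H ∧ (NoZero F ∧ ManyC D k F)} :
        Set (Fin (N + 1) → E (N + 1) d → ℤ)).ncard : ℝ) /
          (H : ℝ) ^ ((N + 1) * (N + d).choose N - k * N)) atTop (𝓝 κ) ∧
      ∀ i : Finset (V N × V N), i.card = k →
        Tendsto (fun H : ℕ => (({F | F ∈ Fb (N + 1) d H ∧ (NoZero F ∧ Port D F = i)} :
        Set (Fin (N + 1) → E (N + 1) d → ℤ)).ncard : ℝ) /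
          (H : ℝ) ^ ((N + 1) * (N + d).choose N - k * N)) atTop (𝓝 (a i)) := by
  classical
  obtain ⟨d₁, hd₁⟩ := Pool.Agent.R414.EA.final N D k hN hD hk
  obtain ⟨d₂, hd₂⟩ := Pool.Agent.R414.EA.final N D (k + 1) hN hD (by omega)
  obtain ⟨d₃, hd₃⟩ := tail_count N (D ^ k) k hN (Nat.one_le_pow _ _ hD) hk
  obtain ⟨c, C₂, hc⟩ := Pool.Agent.W32.GE.pts (D ^ k)
  refine ⟨d₁ + d₂ + d₃ + k + 1, fun d hd => ?_⟩
  obtain ⟨c₁, C₁, H₁, hc₁, hC₁, h₁, h₁'⟩ := hd₁ d (by omega)
  obtain ⟨-, C₃, -, -, hC₃, h₃, -⟩ := hd₂ d (by omega)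
  obtain ⟨-, C₄, hC₄, h₄⟩ := hd₃ d (by omega)
  rw [card_E] at h₄
  set e := (N + 1) * (N + d).choose N - k * N with he
  have hexp : (N + 1) * (N + d).choose N - (k + 1) * N + N = e := by
    have h5 := exp_le (N := N) (d := d) (k := k + 1) hN (by omega)
    rw [he]
    have h6 : (k + 1) * N = k * N + N := by ring
    omega
  let Good : (Ix N d → ℤ) → Prop := fun v => NoZero (cur v)
  let S : (Ix N d → ℤ) → Prop := fun v => NoZero (cur v) ∧ ManyC D k (cur v)
  let Bad : (Ix N d → ℤ) → Prop := fun v => NoZero (cur v) ∧ ManyC D (k + 1) (cur v)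
  let E' : Finset (V N × V N) → (Ix N d → ℤ) → Prop := fun i v =>
    NoZero (cur v) ∧ (i.card = k ∧ Port D (cur v) = i)
  have hBadle : ∀ H : ℕ, 1 ≤ H → (cnt Bad H : ℝ) * (H : ℝ) ^ N ≤ C₃ * (H : ℝ) ^ e := by
    intro H hH
    have h5 := h₃ H hH
    rw [← cnt_cur (fun F => NoZero F ∧ ManyC D (k + 1) F)] at h5
    rw [← hexp, pow_add, ← mul_assoc]
    exact mul_le_mul_of_nonneg_right h5 (by positivity)
  have hBad' : ∀ H : ℕ, 1 ≤ H → (cnt Bad H : ℝ) ≤ C₃ * (1 / (H : ℝ)) * (H : ℝ) ^ e := by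
    intro H hH
    have hH1 : (1 : ℝ) ≤ H := by exact_mod_cast hH
    have hH0 : (0 : ℝ) < H := by linarith
    have h5 : (H : ℝ) ≤ (H : ℝ) ^ N := by
      calc (H : ℝ) = (H : ℝ) ^ 1 := (pow_one _).symm
        _ ≤ (H : ℝ) ^ N := pow_le_pow_right₀ hH1 hN
    have h6 : (cnt Bad H : ℝ) * H ≤ C₃ * (H : ℝ) ^ e :=
      le_trans (mul_le_mul_of_nonneg_left h5 (by positivity)) (hBadle H hH)
    rw [← le_div_iff₀ hH0] at h6
    refine h6.trans (le_of_eq ?_)
    field_simp
  obtain ⟨a, κ, ha0, hsum, hS, hE, -⟩ := main_limit (Lt N d D k) Good Bad S E' e C₁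
    (fun i v hv => ⟨mem_Lt_of (valid_of_eq hv.1 hv.2.2) hv.2.1
      (mem_lat_of_port (D := D) hv.2.2.symm.subset), hv.1⟩)
    (fun i v hvL hvG => by
      obtain ⟨h5, h6, h7⟩ := mem_Lt hvG hvL
      have h8 := port_of_mem_lat hvG h5 h7
      refine ⟨⟨hvG, h6 ▸ manyC_of_subset h8⟩, fun hnE => ⟨hvG, ?_⟩⟩
      have h9 : ∃ q, q ∈ Port D (cur v) ∧ q ∉ i := by
        by_contra hcon
        push Not at hcon
        exact hnE ⟨hvG, h6, Set.Subset.antisymm (fun q hq => hcon q hq) h8⟩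
      obtain ⟨q, hq1, hq2⟩ := h9
      have h10 : ((insert q i : Finset (V N × V N)) : Set (V N × V N)) ⊆ Port D (cur v) := by
        intro q' hq'
        rw [Finset.mem_coe, Finset.mem_insert] at hq'
        rcases hq' with rfl | hq'
        · exact hq1
        · exact h8 hq'
      have h11 := manyC_of_subset h10
      rwa [Finset.card_insert_of_notMem hq2, h6] at h11)
    (fun i j v h h' => Finset.coe_injective (h.2.2.symm.trans h'.2.2))
    (by
      have h5 : Tendsto (fun H : ℕ => C₃ * (1 / (H : ℝ))) atTop (𝓝 0) := by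
        have := (tendsto_one_div_atTop_nhds_zero_nat (𝕜 := ℝ)).const_mul C₃
        rwa [mul_zero] at this
      refine squeeze_zero' (Eventually.of_forall fun H => by positivity) ?_ h5
      filter_upwards [eventually_ge_atTop 1] with H hH
      have hH0 : (0 : ℝ) < H := by exact_mod_cast hH
      rw [div_le_iff₀ (by positivity)]
      exact hBad' H hH)
    (fun H hH => by
      have h5 := h₁ H hH
      rwa [← cnt_cur (fun F => NoZero F ∧ ManyC D k F)] at h5)
    (fun ε hε => by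
      obtain ⟨κ₀, hκ₀⟩ : ∃ κ₀ : ℕ, C₄ * (1 / 2) ^ κ₀ < ε / 2 := by
        have h5 : Tendsto (fun n : ℕ => C₄ * (1 / 2 : ℝ) ^ n) atTop (𝓝 0) := by
          have := (tendsto_pow_atTop_nhds_zero_of_lt_one (r := (1 / 2 : ℝ)) (by norm_num)
            (by norm_num)).const_mul C₄
          rwa [mul_zero] at this
        exact (h5.eventually (gt_mem_nhds (by positivity))).exists
      obtain ⟨A, -, hA⟩ := hc (2 ^ κ₀) (one_le_pow₀ (by norm_num))
      let VA : Finset (V N) := Fintype.piFinset fun _ => A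
      refine ⟨(VA ×ˢ VA).powerset, ?_⟩
      have hN' : ∀ᶠ H : ℕ in atTop, 2 * C₃ / ε < (H : ℝ) :=
        tendsto_natCast_atTop_atTop.eventually (eventually_gt_atTop _)
      filter_upwards [hN', eventually_ge_atTop 1] with H hH hH1
      have hH0 : (0 : ℝ) < H := by exact_mod_cast hH1
      have h5 : cnt (fun v => S v ∧ ∀ i ∈ (VA ×ˢ VA).powerset, ¬ E' i v) H ≤
          cnt Bad H + cnt (fun v : Ix N d → ℤ => NoZero (cur v) ∧
            ∃ κ, ManyAt (D ^ k) k (κ + κ₀) (cur v)) H := by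
        refine le_trans (cnt_mono (fun v hv => ?_) H) (cnt_or H)
        obtain ⟨⟨hvG, hvM⟩, hvE⟩ := hv
        by_cases hbad : ManyC D (k + 1) (cur v)
        · exact Or.inl ⟨hvG, hbad⟩
        · right
          refine ⟨hvG, ?_⟩
          obtain ⟨i, hi1, hi2, hi3⟩ := exists_port hvG hvM hbad
          have h6 : i ∉ (VA ×ˢ VA).powerset := fun h => hvE i h ⟨hvG, hi2, hi1.symm⟩
          rw [Finset.mem_powerset] at h6
          have h7 : ∃ q ∈ i, q.1 ∉ VA := by
            by_contra hcon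
            push Not at hcon
            apply h6
            intro q hq
            rw [Finset.mem_product]
            refine ⟨hcon q hq, ?_⟩
            obtain ⟨q', hq', h8⟩ := hi3.2 q hq
            rw [← h8]
            exact hcon q' hq'
          obtain ⟨q, hq, hqA⟩ := h7
          have h8 : ∃ l, q.1 l ∉ A := by
            by_contra hcon
            push Not at hcon
            exact hqA (Fintype.mem_piFinset.mpr hcon)
          obtain ⟨l, hl⟩ := h8
          have h9 : (i : Set (V N × V N)) ⊆ Port D (cur v) := hi1.subset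
          let eq := i.equivFinOfCardEq hi2
          refine high hk hvG (fun j => (eq.symm j).1.1) ?_ ?_
            (fun K _ _ hK z hz φ => hA K hK z hz φ) (eq ⟨q, hq⟩) l ?_
          · intro j j' h
            apply eq.symm.injective
            exact Subtype.ext (Port.inj (h9 (eq.symm j).2) (h9 (eq.symm j').2) h)
          · exact fun j => (h9 (eq.symm j).2).1
          · simp only [Equiv.symm_apply_apply]
            exact hl
      have h6 : (cnt (fun v : Ix N d → ℤ => NoZero (cur v) ∧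
            ∃ κ, ManyAt (D ^ k) k (κ + κ₀) (cur v)) H : ℝ) ≤
          C₄ * (1 / 2) ^ κ₀ * (H : ℝ) ^ e := by
        have h7 := h₄ H hH1 κ₀
        rwa [← cnt_cur (fun F => NoZero F ∧ ∃ κ, ManyAt (D ^ k) k (κ + κ₀) F)] at h7
      have h7 := hBad' H hH1
      have h8 : (cnt (fun v => S v ∧ ∀ i ∈ (VA ×ˢ VA).powerset, ¬ E' i v) H : ℝ) ≤
          C₃ * (1 / (H : ℝ)) * (H : ℝ) ^ e + C₄ * (1 / 2) ^ κ₀ * (H : ℝ) ^ e := by
        refine le_trans (Nat.cast_le.mpr h5) ?_
        push_cast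
        exact add_le_add h7 h6
      refine h8.trans ?_
      have h9 : C₃ * (1 / (H : ℝ)) ≤ ε / 2 := by
        rw [div_lt_iff₀ hε] at hH
        rw [mul_one_div, div_le_iff₀ hH0]
        nlinarith
      have h10 : (0 : ℝ) < (H : ℝ) ^ e := by positivity
      nlinarith)
    (fun i v₀ _ hv₀ => exists_poly (by omega) v₀ hv₀)
  refine ⟨a, κ, ?_, ha0, ?_, hsum, ?_, ?_⟩
  · -- positivity
    have h5 : c₁ ≤ κ := by
      refine ge_of_tendsto hS ?_
      filter_upwards [eventually_ge_atTop H₁, eventually_ge_atTop 1] with H hH hH1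
      have hH0 : (0 : ℝ) < H := by exact_mod_cast hH1
      rw [le_div_iff₀ (by positivity)]
      refine (h₁' H hH).trans ?_
      rw [← cnt_cur (fun F => NoZero F ∧ ManyC 1 k F)]
      exact Nat.cast_le.mpr (cnt_mono (fun v hv => ⟨hv.1, manyC_mono hD hv.2⟩) H)
    linarith
  · intro i hi
    have h5 := hE i
    have h6 : ∀ H : ℕ, cnt (E' i) H = 0 := by
      intro H
      unfold cnt
      rw [Set.ncard_eq_zero (Pool.Agent.R414.ED.box_finite _ H)]
      ext v
      simp only [Set.mem_ofPred_eq, Set.mem_empty_iff_false, iff_false]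
      rintro ⟨-, -, h7, -⟩
      exact hi h7
    simp only [h6, Nat.cast_zero, zero_div] at h5
    exact tendsto_nhds_unique h5 tendsto_const_nhds
  · refine hS.congr fun H => ?_
    rw [← cnt_cur (fun F => NoZero F ∧ ManyC D k F)]
  · intro i hi
    refine (hE i).congr fun H => ?_
    rw [← cnt_cur (N := N) (d := d) (fun F => NoZero F ∧ Port D F = (i : Set (V N × V N)))]
    congr 2
    exact Pool.Agent.R414.ED.cnt_congr (fun v => ⟨fun h => ⟨h.1, h.2.2⟩, fun h => ⟨h.1, hi, h.2⟩⟩) H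

end Pool.Agent.R414.EG
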