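import Pool.Agent.R414.EG.Tail

/-!
# A polynomial condition for systems without common zeros
-/

set_option autoImplicit false

open Finset
open Pool.Agent.W276.GE

noncomputable section

namespace Pool.Agent.R414.EG

/-- a spanning family contains the columns of an invertible matrix -/
theorem exists_cols {a c : Type} [Fintype a] [DecidableEq a] [Fintype c] (v : c → a → ℝ)
    (hv : ∀ w : a → ℝ, ∃ θ : c → ℝ, w = ∑ j, θ j • v j) :
    ∃ f : a → c, (Matrix.of fun α β => v (f β) α).det ≠ 0 := by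
  have hspan : Submodule.span ℝ (Set.range v) = ⊤ := by
    rw [eq_top_iff]
    rintro w -
    obtain ⟨θ, rfl⟩ := hv w
    exact Submodule.sum_mem _ fun j _ => Submodule.smul_mem _ _ (Submodule.subset_span ⟨j, rfl⟩)
  obtain ⟨b, hb1, hb2, hb3⟩ := exists_linearIndependent ℝ (Set.range v)
  let B : Module.Basis b ℝ (a → ℝ) := Module.Basis.mk hb3 (by rw [Subtype.range_coe, hb2, hspan])
  let e : a ≃ b := (Pi.basisFun ℝ a).indexEquiv B
  choose g hg using fun x : b => hb1 x.2
  refine ⟨fun β => g (e β), ?_⟩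
  have h1 : LinearIndependent ℝ (fun β : a => v (g (e β))) := by
    have : (fun β : a => v (g (e β))) = (fun x : b => (x : a → ℝ)) ∘ e := by
      funext β
      exact hg _
    rw [this]
    exact hb3.comp _ e.injective
  have h2 := (Matrix.linearIndependent_cols_iff_isUnit
    (A := Matrix.of fun α β => v (g (e β)) α)).mp h1
  exact ((Matrix.isUnit_iff_isUnit_det _).mp h2).ne_zero

/-- the systems as families over one index set -/
abbrev Ix (N d : ℕ) : Type := Fin (N + 1) × E (N + 1) d

/-- the system of a family -/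
def cur {N d : ℕ} (v : Ix N d → ℤ) : Fin (N + 1) → E (N + 1) d → ℤ := fun l α => v (l, α)

/-- generic coefficients of the multiples -/
def shP {N d s t : ℕ} (j : Fin (N + 1)) (γ : E (N + 1) s) (α : E (N + 1) t) :
    MvPolynomial (Ix N d) ℤ :=
  if ∀ i, γ.1 i ≤ α.1 i then
    (if h : (fun i => α.1 i - γ.1 i) ∈ Finset.Nat.antidiagonalTuple (N + 1) d then
      MvPolynomial.X (j, ⟨_, h⟩) else 0) else 0

theorem eval_shP {N d s t : ℕ} (v : Ix N d → ℤ) (j : Fin (N + 1)) (γ : E (N + 1) s)
    (α : E (N + 1) t) : MvPolynomial.eval v (shP (d := d) j γ α) = sh (cur v j) γ α := by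
  unfold shP sh co
  split_ifs
  · rw [MvPolynomial.eval_X]
    rfl
  · rw [map_zero]
  · rw [map_zero]

theorem exists_poly {N d : ℕ} (hd : 1 ≤ d) (v₀ : Ix N d → ℤ) (h : NoZero (cur v₀)) :
    ∃ P : MvPolynomial (Ix N d) ℤ, MvPolynomial.eval v₀ P ≠ 0 ∧
      ∀ v, MvPolynomial.eval v P ≠ 0 → NoZero (cur v) := by
  classical
  obtain ⟨t, ht⟩ : ∃ t, t = (N + 1) * (d - 1) + 1 := ⟨_, rfl⟩
  have hdt : d ≤ t := by
    have : d - 1 ≤ (N + 1) * (d - 1) := Nat.le_mul_of_pos_left _ (by omega)
    omega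
  have hs : (t - d) + d = t := by omega
  have hsp : Spans (cur v₀) t :=
    W405.GE.span_of_mac (W216.GE.mac W85.GE.perm W333.GELin.lin W366.GE.hyp) (N + 1) d (by omega) hd
      (cur v₀) h t ht.ge
  obtain ⟨f, hf⟩ := exists_cols (a := E (N + 1) t) (c := Fin (N + 1) × E (N + 1) (t - d))
    (fun c α => (sh (cur v₀ c.1) c.2 α : ℝ)) (by
      intro w
      obtain ⟨θ, hθ⟩ := hsp w
      refine ⟨fun c => θ c.1 c.2, ?_⟩
      funext α
      rw [hθ α, Finset.sum_apply, Fintype.sum_prod_type]
      rfl)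
  let MP : Matrix (E (N + 1) t) (E (N + 1) t) (MvPolynomial (Ix N d) ℤ) :=
    Matrix.of fun α β => shP (f β).1 (f β).2 α
  let MZ : (Ix N d → ℤ) → Matrix (E (N + 1) t) (E (N + 1) t) ℤ := fun v =>
    Matrix.of fun α β => sh (cur v (f β).1) (f β).2 α
  have hev : ∀ v, MvPolynomial.eval v MP.det = (MZ v).det := by
    intro v
    rw [RingHom.map_det]
    congr 1
    ext α β
    exact eval_shP v _ _ _
  refine ⟨MP.det, ?_, fun v hv => ?_⟩
  · rw [hev]
    intro h0
    apply hf
    have h1 : (Matrix.of fun α β => ((sh (cur v₀ (f β).1) (f β).2 α : ℤ) : ℝ) :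
        Matrix (E (N + 1) t) (E (N + 1) t) ℝ) = (Int.castRingHom ℝ).mapMatrix (MZ v₀) := by
      ext α β
      rfl
    rw [h1, ← RingHom.map_det, h0, map_zero]
  · rw [hev] at hv
    intro x hx
    have h1 : ((Int.castRingHom ℂ).mapMatrix (MZ v)).det ≠ 0 := by
      rw [← RingHom.map_det]
      simpa using hv
    have h2 : Matrix.vecMul (fun β : E (N + 1) t => ∏ i, x i ^ β.1 i)
        ((Int.castRingHom ℂ).mapMatrix (MZ v)) = 0 := by
      funext α
      have h3 := ev_sh hs (cur v (f α).1) (f α).2 x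
      rw [hx (f α).1, mul_zero] at h3
      rw [Pi.zero_apply, ← h3]
      unfold Matrix.vecMul dotProduct ev
      refine Finset.sum_congr rfl fun β _ => ?_
      rw [mul_comm]
      rfl
    have h3 := Matrix.eq_zero_of_vecMul_eq_zero h1 h2
    funext i
    have h4 := congrFun h3 (W216.GE.pw (N + 1) t i)
    simp only [Pi.zero_apply] at h4
    rw [Finset.prod_eq_single i] at h4
    · have h5 : (W216.GE.pw (N + 1) t i).1 i = t := by simp [W216.GE.pw]
      rw [h5] at h4
      exact pow_eq_zero_iff (by omega) |>.1 h4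
    · intro k _ hk
      have h5 : (W216.GE.pw (N + 1) t i).1 k = 0 := by simp [W216.GE.pw, hk]
      rw [h5, pow_zero]
    · intro h; exact absurd (mem_univ i) h

end Pool.Agent.R414.EG
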