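import Pool.Agent.R414.EG.Nd
import Pool.Agent.R414.ED.Lim

/-!
# Portraits
-/

set_option autoImplicit false

open Finset Height NumberField
open Pool.Agent.W276.GE
open Pool.Agent.R414.EA

noncomputable section

namespace Pool.Agent.R414.EG

/-- the vectors -/
abbrev V (N : ℕ) : Type := Fin (N + 1) → ℂ

/-- the first non zero coordinate is 1 -/
def Nrm {N : ℕ} (x : V N) : Prop := ∃ l, x l = 1 ∧ ∀ j < l, x j = 0

theorem Nrm.ne_zero {N : ℕ} {x : V N} (h : Nrm x) : x ≠ 0 := by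
  rintro rfl
  obtain ⟨l, hl, -⟩ := h
  simp at hl

theorem Nrm.eq {N : ℕ} {x y : V N} (hx : Nrm x) (hy : Nrm y) {c : ℂ} (h : x = c • y) : x = y := by
  obtain ⟨l, hl, hl'⟩ := hx
  obtain ⟨m, hm, hm'⟩ := hy
  have hc : ∀ j, x j = c * y j := fun j => congrFun h j
  rcases lt_trichotomy l m with h1 | h1 | h1
  · have h2 := hc l
    rw [hm' l h1, hl, mul_zero] at h2
    exact absurd h2 one_ne_zero
  · subst h1
    have h2 := hc l
    rw [hl, hm, mul_one] at h2
    rw [h, ← h2, one_smul]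
  · have h2 := hc m
    rw [hl' m h1, hm, mul_one] at h2
    have h3 := hc l
    rw [hl, ← h2, zero_mul] at h3
    exact absurd h3 one_ne_zero

theorem exists_nrm {N : ℕ} {x : V N} (hx : x ≠ 0) : ∃ l, x l ≠ 0 ∧ Nrm ((x l)⁻¹ • x) := by
  classical
  obtain ⟨l₀, hl₀⟩ := Function.ne_iff.mp hx
  have hne : (Finset.univ.filter fun l => x l ≠ 0).Nonempty :=
    ⟨l₀, Finset.mem_filter.mpr ⟨Finset.mem_univ _, hl₀⟩⟩
  set l := (Finset.univ.filter fun l => x l ≠ 0).min' hne with hl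
  have h1 := Finset.min'_mem _ hne
  rw [← hl, Finset.mem_filter] at h1
  refine ⟨l, h1.2, l, ?_, ?_⟩
  · rw [Pi.smul_apply, smul_eq_mul, inv_mul_cancel₀ h1.2]
  · intro j hj
    rw [Pi.smul_apply, smul_eq_mul]
    by_contra h2
    have h3 : x j ≠ 0 := fun h => h2 (by rw [h, mul_zero])
    have h4 := Finset.min'_le (Finset.univ.filter fun l => x l ≠ 0) j
      (Finset.mem_filter.mpr ⟨Finset.mem_univ _, h3⟩)
    exact absurd (lt_of_le_of_lt (hl ▸ h4) hj) (lt_irrefl _)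

/-- coordinates in a number field of degree at most `D` -/
def Deg {N : ℕ} (D : ℕ) (x : V N) : Prop :=
  ∃ K : IntermediateField ℚ ℂ, FiniteDimensional ℚ K ∧ Module.finrank ℚ K ≤ D ∧ ∀ l, x l ∈ K

/-- the preperiodic points of degree at most `D` -/
def Pt {N d : ℕ} (D : ℕ) (F : Fin (N + 1) → E (N + 1) d → ℤ) (x : V N) : Prop :=
  Nrm x ∧ Deg D x ∧
    ∃ m n : ℕ, m < n ∧ ∃ c : ℂ, c ≠ 0 ∧ (fm ℂ F)^[n] x = c • (fm ℂ F)^[m] x

/-- the portrait -/
def Port {N d : ℕ} (D : ℕ) (F : Fin (N + 1) → E (N + 1) d → ℤ) : Set (V N × V N) :=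
  {q | Pt D F q.1 ∧ Nrm q.2 ∧ ∃ c : ℂ, c ≠ 0 ∧ fm ℂ F q.1 = c • q.2}

variable {N d D k : ℕ} {F : Fin (N + 1) → E (N + 1) d → ℤ}

theorem fm_ne_zero (hF : NoZero F) {x : V N} (hx : x ≠ 0) : fm ℂ F x ≠ 0 :=
  image_ne_zero hF (RingHom.id ℂ) hx

theorem fm_deg {x : V N} {K : IntermediateField ℚ ℂ} (h : ∀ l, x l ∈ K) (l : Fin (N + 1)) :
    fm ℂ F x l ∈ K := by
  unfold fm ev
  exact K.sum_mem fun α _ => K.mul_mem (intCast_mem K _) (prod_mem fun i _ => pow_mem (h i) _)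

/-- preperiodicity of multiples -/
theorem pre_smul {x : V N} {a : ℂ} (ha : a ≠ 0)
    (h : ∃ m n : ℕ, m < n ∧ ∃ c : ℂ, c ≠ 0 ∧ (fm ℂ F)^[n] x = c • (fm ℂ F)^[m] x) :
    ∃ m n : ℕ, m < n ∧ ∃ c : ℂ, c ≠ 0 ∧ (fm ℂ F)^[n] (a • x) = c • (fm ℂ F)^[m] (a • x) := by
  obtain ⟨m, n, hmn, c, hc, h⟩ := h
  obtain ⟨c₁, hc₁, h₁⟩ := fm_iter_smul F n a ha x
  obtain ⟨c₂, hc₂, h₂⟩ := fm_iter_smul F m a ha x
  refine ⟨m, n, hmn, c₁ * c * c₂⁻¹, mul_ne_zero (mul_ne_zero hc₁ hc) (inv_ne_zero hc₂), ?_⟩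
  rw [h₁, h₂, h, smul_smul, smul_smul, mul_assoc, mul_assoc, inv_mul_cancel₀ hc₂, mul_one]

/-- the normalized image -/
theorem Pt.image (hF : NoZero F) {x : V N} (h : Pt D F x) :
    ∃ y, Pt D F y ∧ ∃ c : ℂ, c ≠ 0 ∧ fm ℂ F x = c • y := by
  obtain ⟨h1, ⟨K, hK1, hK2, hK3⟩, m, n, hmn, c, hc, hnz⟩ := h
  obtain ⟨l, hl, hn⟩ := exists_nrm (fm_ne_zero hF h1.ne_zero)
  refine ⟨_, ⟨hn, ⟨K, hK1, hK2, fun j => ?_⟩, pre_smul (inv_ne_zero hl) ?_⟩, fm ℂ F x l, hl, ?_⟩
  · rw [Pi.smul_apply, smul_eq_mul]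
    exact K.mul_mem (K.inv_mem (fm_deg hK3 l)) (fm_deg hK3 j)
  · refine ⟨m, n, hmn, c ^ d, pow_ne_zero _ hc, ?_⟩
    rw [← Function.iterate_succ_apply, ← Function.iterate_succ_apply,
      Function.iterate_succ_apply', Function.iterate_succ_apply', hnz, fm_smul]
  · rw [smul_smul, mul_inv_cancel₀ hl, one_smul]

theorem Port.functional {x y y' : V N} (h : (x, y) ∈ Port D F) (h' : (x, y') ∈ Port D F) :
    y = y' := by
  obtain ⟨-, h1, c, hc, h2⟩ := h
  obtain ⟨-, h1', c', hc', h2'⟩ := h'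
  simp only at h1 h2 h1' h2'
  refine h1.eq h1' (c := c⁻¹ * c') ?_
  rw [← smul_smul, ← h2', h2, smul_smul, inv_mul_cancel₀ hc, one_smul]

theorem Port.inj {q q' : V N × V N} (h : q ∈ Port D F) (h' : q' ∈ Port D F) (he : q.1 = q'.1) :
    q = q' := by
  obtain ⟨x, y⟩ := q
  obtain ⟨x', y'⟩ := q'
  simp only at he
  subst he
  rw [Port.functional h h']

theorem manyC_of_pts (x : Fin k → V N) (hx : Function.Injective x) (h : ∀ i, Pt D F (x i)) :
    ManyC D k F := by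
  refine ⟨x, fun i => (h i).1.ne_zero, fun i j hij c hc => ?_, fun i => ⟨(h i).2.1, (h i).2.2⟩⟩
  exact hij (hx ((h i).1.eq (h j).1 hc))

theorem pts_of_manyC (h : ManyC D k F) : ∃ x : Fin k → V N, Function.Injective x ∧
    ∀ i, Pt D F (x i) := by
  obtain ⟨x, hx0, hxx, hx⟩ := h
  choose l hl hn using fun i => exists_nrm (hx0 i)
  refine ⟨fun i => (x i (l i))⁻¹ • x i, ?_, fun i => ⟨hn i, ?_, pre_smul (inv_ne_zero (hl i)) (hx i).2⟩⟩
  · intro i j hij
    by_contra hne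
    simp only at hij
    apply hxx i j hne (x i (l i) * (x j (l j))⁻¹)
    rw [← smul_smul, ← hij, smul_smul, mul_inv_cancel₀ (hl i), one_smul]
  · obtain ⟨K, hK1, hK2, hK3⟩ := (hx i).1
    refine ⟨K, hK1, hK2, fun j => ?_⟩
    show (x i (l i))⁻¹ * x i j ∈ K
    exact K.mul_mem (K.inv_mem (hK3 _)) (hK3 _)

theorem manyC_of_subset {i : Finset (V N × V N)} (hi : (i : Set (V N × V N)) ⊆ Port D F) :
    ManyC D i.card F := by
  classical
  refine manyC_of_pts (fun j => (i.equivFin.symm j).1.1) ?_ fun j => ?_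
  · intro j j' h
    apply i.equivFin.symm.injective
    exact Subtype.ext (Port.inj (hi (i.equivFin.symm j).2) (hi (i.equivFin.symm j').2) h)
  · exact (hi (i.equivFin.symm j).2).1

/-- the possible portraits -/
def Valid (D : ℕ) (i : Finset (V N × V N)) : Prop :=
  (∀ q ∈ i, Nrm q.1 ∧ Deg D q.1 ∧ Nrm q.2) ∧ ∀ q ∈ i, ∃ q' ∈ i, q'.1 = q.2

theorem exists_port (hF : NoZero F) (h1 : ManyC D k F) (h2 : ¬ ManyC D (k + 1) F) :
    ∃ i : Finset (V N × V N), (i : Set (V N × V N)) = Port D F ∧ i.card = k ∧ Valid D i := by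
  classical
  have hsub : ∀ i : Finset (V N × V N), (i : Set (V N × V N)) ⊆ Port D F → i.card ≤ k := by
    intro i hi
    by_contra hlt
    push Not at hlt
    obtain ⟨j, hj1, hj2⟩ := Finset.exists_subset_card_eq (s := i) (n := k + 1) hlt
    apply h2
    rw [← hj2]
    exact manyC_of_subset ((Finset.coe_subset.mpr hj1).trans hi)
  have hfin : (Port D F).Finite := by
    by_contra hinf
    obtain ⟨i, hi1, hi2⟩ := Set.Infinite.exists_subset_card_eq hinf (k + 1)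
    have := hsub i hi1
    omega
  obtain ⟨x, hx, hpt⟩ := pts_of_manyC h1
  choose y hy c hc hcy using fun i => (hpt i).image hF
  refine ⟨hfin.toFinset, hfin.coe_toFinset, ?_, ?_, ?_⟩
  · refine le_antisymm (hsub _ hfin.coe_toFinset.subset) ?_
    have h3 : Finset.univ.image (fun i => (x i, y i)) ⊆ hfin.toFinset := by
      intro q hq
      obtain ⟨i, -, rfl⟩ := Finset.mem_image.mp hq
      rw [Set.Finite.mem_toFinset]
      exact ⟨hpt i, (hy i).1, c i, hc i, hcy i⟩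
    have h4 := Finset.card_le_card h3
    rwa [Finset.card_image_of_injective _ (fun i j hij => hx (congrArg Prod.fst hij)),
      Finset.card_univ, Fintype.card_fin] at h4
  · intro q hq
    rw [Set.Finite.mem_toFinset] at hq
    exact ⟨hq.1.1, hq.1.2.1, hq.2.1⟩
  · intro q hq
    rw [Set.Finite.mem_toFinset] at hq
    obtain ⟨y', hy', c', hc', h'⟩ := hq.1.image hF
    obtain ⟨hq1, hq2, c'', hc'', h''⟩ := hq
    have h3 : y' = q.2 := by
      refine hy'.1.eq hq2 (c := c'⁻¹ * c'') ?_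
      rw [← smul_smul, ← h'', h', smul_smul, inv_mul_cancel₀ hc', one_smul]
    obtain ⟨z, hz, a, ha, hza⟩ := hy'.image hF
    refine ⟨(y', z), ?_, h3⟩
    rw [Set.Finite.mem_toFinset]
    exact ⟨hy', hz.1, a, ha, hza⟩

theorem ev_add' (g h : E (N + 1) d → ℤ) (x : V N) : ev (g + h) x = ev g x + ev h x := by
  unfold ev
  rw [← Finset.sum_add_distrib]
  refine Finset.sum_congr rfl fun α _ => ?_
  rw [Pi.add_apply]
  push_cast
  ring

theorem ev_smul' (a : ℤ) (g : E (N + 1) d → ℤ) (x : V N) : ev (a • g) x = (a : ℂ) * ev g x := by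
  unfold ev
  rw [Finset.mul_sum]
  refine Finset.sum_congr rfl fun α _ => ?_
  rw [Pi.smul_apply, smul_eq_mul]
  push_cast
  ring

/-- the lattice of a portrait -/
def lat (N d : ℕ) (i : Finset (V N × V N)) : Submodule ℤ (Ix N d → ℤ) where
  carrier := {v | ∀ q ∈ i, ∀ l l', q.2 l * ev (cur v l') q.1 = q.2 l' * ev (cur v l) q.1}
  zero_mem' := by
    intro q _ l l'
    have h : ∀ l, ev (cur (0 : Ix N d → ℤ) l) q.1 = 0 := by
      intro l
      unfold ev cur
      simp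
    rw [h, h]
    ring
  add_mem' := by
    intro v w hv hw q hq l l'
    have e : ∀ l, cur (v + w) l = cur v l + cur w l := fun l => rfl
    rw [e, e, ev_add', ev_add', mul_add, mul_add, hv q hq l l', hw q hq l l']
  smul_mem' := by
    intro a v hv q hq l l'
    have e : ∀ l, cur (a • v) l = a • cur v l := fun l => rfl
    rw [e, e, ev_smul', ev_smul']
    linear_combination (a : ℂ) * hv q hq l l'

theorem mem_lat_of_port {v : Ix N d → ℤ} {i : Finset (V N × V N)}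
    (h : (i : Set (V N × V N)) ⊆ Port D (cur v)) : v ∈ lat N d i := by
  intro q hq l l'
  obtain ⟨-, -, c, -, hc⟩ := h hq
  have h1 : ∀ l, ev (cur v l) q.1 = c * q.2 l := fun l => congrFun hc l
  rw [h1, h1]
  ring

theorem port_of_mem_lat {v : Ix N d → ℤ} (hF : NoZero (cur v)) {i : Finset (V N × V N)}
    (hi : Valid D i) (h : v ∈ lat N d i) : (i : Set (V N × V N)) ⊆ Port D (cur v) := by
  classical
  have himg : ∀ q ∈ i, ∃ c : ℂ, c ≠ 0 ∧ fm ℂ (cur v) q.1 = c • q.2 := by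
    intro q hq
    obtain ⟨hq1, -, l, hl, -⟩ := hi.1 q hq
    have hz := fm_ne_zero hF hq1.ne_zero
    have h1 : fm ℂ (cur v) q.1 = (fm ℂ (cur v) q.1 l) • q.2 := by
      funext l'
      have h2 := h q hq l l'
      rw [hl, one_mul] at h2
      rw [Pi.smul_apply, smul_eq_mul, mul_comm]
      exact h2
    refine ⟨fm ℂ (cur v) q.1 l, fun h0 => hz ?_, h1⟩
    rw [h1, h0, zero_smul]
  have horb : ∀ q ∈ i, ∀ t : ℕ, ∃ q' ∈ i, ∃ c : ℂ, c ≠ 0 ∧ (fm ℂ (cur v))^[t] q.1 = c • q'.1 := by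
    intro q hq t
    induction t with
    | zero => exact ⟨q, hq, 1, one_ne_zero, by rw [one_smul]; rfl⟩
    | succ t ih =>
      obtain ⟨q', hq', c, hc, h1⟩ := ih
      obtain ⟨c', hc', h2⟩ := himg q' hq'
      obtain ⟨q'', hq'', h3⟩ := hi.2 q' hq'
      refine ⟨q'', hq'', c ^ d * c', mul_ne_zero (pow_ne_zero _ hc) hc', ?_⟩
      rw [Function.iterate_succ_apply', h1, fm_smul, h2, smul_smul, h3]
  intro q hq
  rw [Finset.mem_coe] at hq
  obtain ⟨h1, h2, h3⟩ := hi.1 q hq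
  refine ⟨⟨h1, h2, ?_⟩, h3, himg q hq⟩
  choose g hg c hc hgc using horb q hq
  obtain ⟨m, n, hmn, he⟩ := Finite.exists_ne_map_eq_of_infinite
    (fun t : ℕ => (⟨g t, hg t⟩ : {q // q ∈ i}))
  have he' : g m = g n := congrArg Subtype.val he
  rcases lt_or_gt_of_ne hmn with hlt | hlt
  · refine ⟨m, n, hlt, c n * (c m)⁻¹, mul_ne_zero (hc n) (inv_ne_zero (hc m)), ?_⟩
    rw [hgc n, hgc m, ← he', smul_smul, mul_assoc, inv_mul_cancel₀ (hc m), mul_one]
  · refine ⟨n, m, hlt, c m * (c n)⁻¹, mul_ne_zero (hc m) (inv_ne_zero (hc n)), ?_⟩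
    rw [hgc n, hgc m, he', smul_smul, mul_assoc, inv_mul_cancel₀ (hc n), mul_one]

/-- the lattice for the limit law -/
def Lt (N d D k : ℕ) (i : Finset (V N × V N)) : Submodule ℤ (Ix N d → ℤ) := by
  classical
  exact if Valid D i ∧ i.card = k then lat N d i else ⊥

theorem not_noZero_zero : ¬ NoZero (cur (0 : Ix N d → ℤ)) := by
  intro h
  have h1 := h (fun _ => 1) (fun i => by unfold ev cur; simp)
  have h2 := congrFun h1 0
  simp at h2

theorem mem_Lt {i : Finset (V N × V N)} {v : Ix N d → ℤ} (hF : NoZero (cur v))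
    (h : v ∈ Lt N d D k i) : Valid D i ∧ i.card = k ∧ v ∈ lat N d i := by
  classical
  unfold Lt at h
  split_ifs at h with h1
  · exact ⟨h1.1, h1.2, h⟩
  · rw [Submodule.mem_bot] at h
    rw [h] at hF
    exact absurd hF not_noZero_zero

/-- all points over one number field, with their heights -/
theorem high (hk : 1 ≤ k) (hF : NoZero F) (x : Fin k → V N) (hx : Function.Injective x)
    (hpt : ∀ i, Pt D F (x i)) {A : Finset ℂ} {κ₀ : ℕ}
    (hA : ∀ (K : Type) [Field K] [NumberField K], Module.finrank ℚ K ≤ D ^ k →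
      ∀ z : K, mulHeight₁ z ≤ 2 ^ κ₀ → ∀ φ : K →+* ℂ, φ z ∈ A)
    (j : Fin k) (l : Fin (N + 1)) (hjl : x j l ∉ A) : ∃ κ, ManyAt (D ^ k) k (κ + κ₀) F := by
  classical
  choose K hK using fun i => (hpt i).2.1
  obtain ⟨L, hL, hL2, hL3⟩ := exists_compositum D k K fun i => ⟨(hK i).1, (hK i).2.1⟩
  let y : Fin k → Fin (N + 1) → L := fun i l => ⟨x i l, hL3 i ((hK i).2.2 l)⟩
  let φ : L →+* ℂ := algebraMap L ℂ
  have hφ : ∀ i, (fun l => φ (y i l)) = x i := fun i => rfl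
  have hit : ∀ (n : ℕ) (z : Fin (N + 1) → L),
      (fun l => φ ((fm L F)^[n] z l)) = (fm ℂ F)^[n] (fun l => φ (z l)) := by
    intro n
    induction n with
    | zero => exact fun z => rfl
    | succ n ih =>
      intro z
      rw [Function.iterate_succ_apply, Function.iterate_succ_apply, ih]
      congr 1
      funext l
      exact ev_map φ (F l) z
  have hit0 : ∀ (n : ℕ) (i : Fin k), (fm ℂ F)^[n] (x i) ≠ 0 := by
    intro n i
    induction n with
    | zero => exact (hpt i).1.ne_zero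
    | succ n ih => rw [Function.iterate_succ_apply']; exact fm_ne_zero hF ih
  have : NumberField L := { to_charZero := inferInstance, to_finiteDimensional := hL }
  obtain ⟨κ, h1, h2⟩ := exists_at' (D := D ^ k) hk hF (K := L) hL2 y
    (by
      intro i h0
      apply (hpt i).1.ne_zero
      rw [← hφ i, h0]
      funext l
      simp)
    (by
      intro i j hij c hc
      apply hij
      apply hx
      refine (hpt i).1.eq (hpt j).1 (c := φ c) ?_
      rw [← hφ i, ← hφ j, hc]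
      funext l
      simp)
    (by
      intro i
      obtain ⟨m, n, hmn, c, hc, hcx⟩ := (hpt i).2.2
      obtain ⟨l₀, hl₀⟩ := Function.ne_iff.mp (hit0 m i)
      have hl₀' : (fm ℂ F)^[m] (x i) l₀ ≠ 0 := hl₀
      have hm : ∀ l, φ ((fm L F)^[m] (y i) l) = (fm ℂ F)^[m] (x i) l := fun l => by
        rw [← hφ i]
        exact congrFun (hit m (y i)) l
      have hn : ∀ l, φ ((fm L F)^[n] (y i) l) = (fm ℂ F)^[n] (x i) l := fun l => by
        rw [← hφ i]
        exact congrFun (hit n (y i)) l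
      have hcl : φ ((fm L F)^[n] (y i) l₀ / (fm L F)^[m] (y i) l₀) = c := by
        rw [map_div₀, hm, hn, hcx, Pi.smul_apply, smul_eq_mul, mul_div_cancel_right₀ _ hl₀']
      refine ⟨m, n, hmn, (fm L F)^[n] (y i) l₀ / (fm L F)^[m] (y i) l₀, ?_, ?_⟩
      · intro h0
        rw [h0, map_zero] at hcl
        exact hc hcl.symm
      · funext l
        apply φ.injective
        rw [hn, hcx, Pi.smul_apply, Pi.smul_apply, smul_eq_mul, smul_eq_mul, map_mul, hcl, hm])
  obtain ⟨l₀, hl₀, -⟩ := (hpt j).1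
  have hy1 : y j l₀ = 1 := by
    apply φ.injective
    rw [map_one]
    exact hl₀
  have h3 : mulHeight₁ (y j l) ≤ mulHeight (y j) := by
    have h4 := height_div_le (y j) l l₀
    rwa [hy1, div_one] at h4
  have h5 : (2 : ℝ) ^ κ₀ < mulHeight₁ (y j l) := by
    by_contra hle
    push Not at hle
    exact hjl (hA L hL2 (y j l) hle φ)
  have h6 : κ₀ ≤ κ := by
    have h7 : (2 : ℝ) ^ κ₀ < 2 ^ (κ + 1) := lt_trans (lt_of_lt_of_le h5 h3) (h2 j)
    have h8 := (pow_lt_pow_iff_right₀ (by norm_num : (1 : ℝ) < 2)).mp h7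
    omega
  exact ⟨κ - κ₀, by rwa [Nat.sub_add_cancel h6]⟩

end Pool.Agent.R414.EG
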